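import Mathlib

set_option autoImplicit false

open Finset

namespace Pool.Agent.N245.GB

/-- The power series `t / (e^t - 1)`. -/
noncomputable abbrev bs : PowerSeries ℝ := bernoulliPowerSeries ℝ

/-- The power series `e^{x t}`. -/
noncomputable abbrev ex (x : ℝ) : PowerSeries ℝ := PowerSeries.rescale x (PowerSeries.exp ℝ)

/-- The value at `x` of the generalized Bernoulli polynomial of order `a` and degree `m`. -/
noncomputable def B (a m : ℕ) (x : ℝ) : ℝ :=
  (m.factorial : ℝ) * PowerSeries.coeff m (bernoulliPowerSeries ℝ ^ a *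
    PowerSeries.rescale x (PowerSeries.exp ℝ))

/-- The polynomial `B_m^{(a)}(x + X)` in the shift. -/
noncomputable def Q (a m : ℕ) (x : ℝ) : Polynomial ℝ :=
  ∑ j ∈ range (m + 1), Polynomial.C ((m.choose j : ℝ) * B a (m - j) x) * Polynomial.X ^ j

lemma coeff_ex (x : ℝ) (j : ℕ) : PowerSeries.coeff j (ex x) = x ^ j / (j.factorial : ℝ) := by
  rw [PowerSeries.coeff_rescale, PowerSeries.coeff_exp]
  simp [div_eq_mul_inv]

lemma ex_add (x y : ℝ) : ex (x + y) = ex x * ex y :=
  (PowerSeries.exp_mul_exp_eq_exp_add x y).symm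

lemma B_add (a m : ℕ) (x y : ℝ) :
    B a m (x + y) = ∑ j ∈ range (m + 1), ((m.choose j : ℝ) * B a (m - j) x) * y ^ j := by
  unfold B
  have h : bernoulliPowerSeries ℝ ^ a * ex (x + y) =
      ex y * (bernoulliPowerSeries ℝ ^ a * ex x) := by rw [ex_add]; ring
  rw [show PowerSeries.rescale (x + y) (PowerSeries.exp ℝ) = ex (x + y) from rfl, h,
    PowerSeries.coeff_mul, Finset.Nat.sum_antidiagonal_eq_sum_range_succ_mk, Finset.mul_sum]
  refine Finset.sum_congr rfl fun j hj => ?_
  have hj' : j ≤ m := by simpa [Nat.lt_succ_iff] using hj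
  rw [coeff_ex, Nat.choose_eq_factorial_div_factorial hj',
    Nat.cast_div (Nat.factorial_mul_factorial_dvd_factorial hj') (by positivity)]
  push_cast
  have h1 : ((m - j).factorial : ℝ) ≠ 0 := by positivity
  have h2 : (j.factorial : ℝ) ≠ 0 := by positivity
  field_simp

lemma eval_Q (a m : ℕ) (x y : ℝ) : (Q a m x).eval y = B a m (x + y) := by
  rw [B_add, Q, Polynomial.eval_finsetSum]
  simp

lemma B_zero (a : ℕ) (x : ℝ) : B a 0 x = 1 := by
  unfold B
  have h : PowerSeries.constantCoeff (bernoulliPowerSeries ℝ) = 1 := by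
    rw [← PowerSeries.coeff_zero_eq_constantCoeff_apply, bernoulliPowerSeries,
      PowerSeries.coeff_mk]
    simp
  rw [PowerSeries.coeff_zero_eq_constantCoeff_apply, map_mul, map_pow, h,
    ← PowerSeries.coeff_zero_eq_constantCoeff_apply, PowerSeries.coeff_rescale,
    PowerSeries.coeff_exp]
  simp

lemma coeff_Q (a m : ℕ) (x : ℝ) (j : ℕ) :
    (Q a m x).coeff j = (m.choose j : ℝ) * B a (m - j) x := by
  unfold Q
  rw [Polynomial.finsetSum_coeff]
  simp only [Polynomial.coeff_C_mul, Polynomial.coeff_X_pow, mul_ite, mul_one, mul_zero]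
  rw [Finset.sum_ite_eq]
  split_ifs with h
  · rfl
  · have : m < j := by simpa [Nat.lt_succ_iff] using h
    rw [Nat.choose_eq_zero_of_lt this]
    simp

lemma natDegree_Q (a m : ℕ) (x : ℝ) : (Q a m x).natDegree = m := by
  apply Polynomial.natDegree_eq_of_le_of_coeff_ne_zero
  · rw [Polynomial.natDegree_le_iff_coeff_eq_zero]
    intro N hN
    rw [coeff_Q, Nat.choose_eq_zero_of_lt hN]
    simp
  · rw [coeff_Q]
    simp [B_zero]

lemma monic_Q (a m : ℕ) (x : ℝ) : (Q a m x).Monic := by
  rw [Polynomial.Monic, Polynomial.leadingCoeff, natDegree_Q, coeff_Q]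
  simp [B_zero]

/-- The derivative. -/
lemma hasDerivAt_B (a m : ℕ) (x : ℝ) :
    HasDerivAt (B a (m + 1)) ((m + 1 : ℕ) * B a m x) x := by
  have h0 : B a (m + 1) = fun y => (Q a (m + 1) x).eval (y - x) := by
    funext y
    rw [eval_Q]
    congr 1
    ring
  rw [h0]
  have h1 := ((Q a (m + 1) x).hasDerivAt (x - x)).comp_sub_const x x
  have h2 : (Polynomial.derivative (Q a (m + 1) x)).eval (x - x) = (m + 1 : ℕ) * B a m x := by
    rw [sub_self, ← Polynomial.coeff_zero_eq_eval_zero, Polynomial.coeff_derivative, coeff_Q]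
    simp
  rw [h2] at h1
  exact h1

/-- The difference. -/
lemma B_diff (a m : ℕ) (x : ℝ) :
    B (a + 1) (m + 1) (x + 1) - B (a + 1) (m + 1) x = (m + 1 : ℕ) * B a m x := by
  unfold B
  rw [← mul_sub, ← map_sub]
  have h : bernoulliPowerSeries ℝ ^ (a + 1) * ex (x + 1) - bernoulliPowerSeries ℝ ^ (a + 1) * ex x
      = PowerSeries.X * (bernoulliPowerSeries ℝ ^ a * ex x) := by
    rw [ex_add]
    have h1 : ex 1 = PowerSeries.exp ℝ := by
      unfold ex
      rw [PowerSeries.rescale_one]
      rfl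
    rw [h1, ← bernoulliPowerSeries_mul_exp_sub_one ℝ]
    ring
  rw [show PowerSeries.rescale (x + 1) (PowerSeries.exp ℝ) = ex (x + 1) from rfl, h,
    PowerSeries.coeff_succ_X_mul, Nat.factorial_succ]
  push_cast
  ring

/-- `B_n^{(n+1)}(1) = 0` for `n ≥ 1`. -/
lemma B_one (n : ℕ) : B (n + 2) (n + 1) 1 = 0 := by
  unfold B
  have hf := bernoulliPowerSeries_mul_exp_sub_one ℝ
  set g := bernoulliPowerSeries ℝ with hg
  have h1 : PowerSeries.rescale (1 : ℝ) (PowerSeries.exp ℝ) = PowerSeries.exp ℝ := by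
    rw [PowerSeries.rescale_one]
    rfl
  rw [h1]
  set D := PowerSeries.derivative ℝ with hD
  have hexp : D (PowerSeries.exp ℝ) = PowerSeries.exp ℝ := by
    ext k
    rw [hD, PowerSeries.coeff_derivative, PowerSeries.coeff_exp, PowerSeries.coeff_exp,
      Nat.factorial_succ]
    simp only [map_div₀, map_one]
    push_cast
    have : (k.factorial : ℝ) ≠ 0 := by positivity
    have h2 : ((k : ℝ) + 1) ≠ 0 := by positivity
    field_simp
  have hd : D g * (PowerSeries.exp ℝ - 1) + g * PowerSeries.exp ℝ = 1 := by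
    have h3 : D (g * (PowerSeries.exp ℝ - 1)) = D PowerSeries.X := by rw [hf]
    rw [Derivation.leibniz, map_sub, hexp] at h3
    have h4 : D (1 : PowerSeries ℝ) = 0 := Derivation.map_one_eq_zero _
    have h5 : D (PowerSeries.X : PowerSeries ℝ) = 1 := by
      rw [hD]
      exact PowerSeries.derivative_X
    rw [h4, h5, sub_zero, smul_eq_mul, smul_eq_mul] at h3
    linear_combination h3
  have he : g * g * PowerSeries.exp ℝ = g - PowerSeries.X * D g := by
    have : g = g * (D g * (PowerSeries.exp ℝ - 1) + g * PowerSeries.exp ℝ) := by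
      rw [hd, mul_one]
    rw [← hf]
    linear_combination -this
  have hk : g ^ (n + 2) * PowerSeries.exp ℝ = g ^ (n + 1) - PowerSeries.X * (g ^ n * D g) := by
    rw [show g ^ (n + 2) * PowerSeries.exp ℝ = g ^ n * (g * g * PowerSeries.exp ℝ) by ring, he]
    ring
  have hp : D (g ^ (n + 1)) = ((n + 1 : ℕ) : PowerSeries ℝ) * (g ^ n * D g) := by
    rw [Derivation.leibniz_pow]
    simp [mul_assoc]
  have hc : ((n + 1 : ℕ) : ℝ) * PowerSeries.coeff (n + 1) (g ^ (n + 2) * PowerSeries.exp ℝ) = 0 := by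
    rw [hk, map_sub, PowerSeries.coeff_succ_X_mul, mul_sub]
    have h6 := congrArg (PowerSeries.coeff n) hp
    rw [hD, PowerSeries.coeff_derivative] at h6
    have h7 : PowerSeries.coeff n (((n + 1 : ℕ) : PowerSeries ℝ) * (g ^ n * D g)) =
        ((n + 1 : ℕ) : ℝ) * PowerSeries.coeff n (g ^ n * D g) := by
      rw [← nsmul_eq_mul, map_nsmul, nsmul_eq_mul]
    rw [h7] at h6
    rw [← h6]
    push_cast
    ring
  have hn : ((n + 1 : ℕ) : ℝ) ≠ 0 := by positivity
  have := (mul_eq_zero.1 hc).resolve_left hn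
  rw [this, mul_zero]

/-- `B_n^{(n+1)}` vanishes at `1, …, n`. -/
lemma B_nat (n : ℕ) : ∀ j : ℕ, j < n → B (n + 1) n ((j : ℝ) + 1) = 0 := by
  induction n with
  | zero => intro j hj; omega
  | succ n ih =>
    intro j
    induction j with
    | zero => intro _; simpa using B_one n
    | succ j ihj =>
      intro hj
      have h1 := B_diff (n + 1) n ((j : ℝ) + 1)
      rw [ihj (by omega), ih j (by omega)] at h1
      push_cast
      simpa using h1

/-- `B_n^{(n+1)}(x) = (x-1)⋯(x-n)`. -/
lemma B_prod (n : ℕ) (x : ℝ) : B (n + 1) n x = ∏ j ∈ range n, (x - ((j : ℝ) + 1)) := by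
  have h : Q (n + 1) n 0 = ∏ j ∈ range n, (Polynomial.X - Polynomial.C ((j : ℝ) + 1)) := by
    refine Polynomial.eq_of_monic_of_dvd_of_natDegree_le (Polynomial.monic_prod_of_monic _ _
      fun j _ => Polynomial.monic_X_sub_C _) (monic_Q _ _ _) ?_ ?_
    · apply Finset.prod_dvd_of_coprime
      · intro i _ j _ hij
        apply Polynomial.isCoprime_X_sub_C_of_isUnit_sub
        have : ((i : ℝ) + 1) - ((j : ℝ) + 1) ≠ 0 := by
          intro h0
          apply hij
          have : (i : ℝ) = j := by linarith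
          exact_mod_cast this
        exact this.isUnit
      · intro j hj
        rw [Polynomial.dvd_iff_isRoot, Polynomial.IsRoot, eval_Q, zero_add]
        exact B_nat n j (by simpa using hj)
    · rw [natDegree_Q, Polynomial.natDegree_prod_of_monic _ _ fun j _ => Polynomial.monic_X_sub_C _,
        Finset.sum_congr rfl (fun j _ => Polynomial.natDegree_X_sub_C _)]
      simp
  have h2 := eval_Q (n + 1) n 0 x
  rw [zero_add] at h2
  rw [← h2, h, Polynomial.eval_prod]
  simp

/-- The value of `B_n^{(n)}` at `m` is a product `(c-1)⋯(c-n)` with `m < c < m + 1`. -/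
lemma B_mean (n : ℕ) (m : ℝ) : ∃ c ∈ Set.Ioo m (m + 1),
    B n n m = ∏ j ∈ range n, (c - ((j : ℝ) + 1)) := by
  obtain ⟨c, hc, h⟩ := exists_hasDerivAt_eq_slope (B (n + 1) (n + 1))
    (fun x => (n + 1 : ℕ) * B (n + 1) n x) (show m < m + 1 by linarith)
    (fun x _ => (hasDerivAt_B (n + 1) n x).continuousAt.continuousWithinAt)
    (fun x _ => hasDerivAt_B (n + 1) n x)
  refine ⟨c, hc, ?_⟩
  rw [add_sub_cancel_left, div_one, B_diff] at h
  have hn : ((n + 1 : ℕ) : ℝ) ≠ 0 := by positivity
  rw [← B_prod]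
  exact (mul_left_cancel₀ hn h).symm

end Pool.Agent.N245.GB
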