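import Pool.Agent.N245.GB.Basic

set_option autoImplicit false

open Finset

namespace Pool.Agent.N245.GB

/-- `α_{n,k}(x)`. -/
noncomputable def alpha (n k : ℕ) (x : ℝ) : ℝ :=
  (-1) ^ k * ∑ j ∈ range (2 * k + 1), (-1) ^ j * (n.choose j : ℝ) * (n.choose (2 * k - j) : ℝ) *
    B n (n - j) x * B n (n - 2 * k + j) x

/-- `β_{n,k}(x)`. -/
noncomputable def beta (n k : ℕ) (x : ℝ) : ℝ :=
  (-1) ^ k * ∑ j ∈ range (2 * k + 1), (-1) ^ j * (n.choose j : ℝ) * (n.choose (2 * k - j) : ℝ) *
    B n j x * B n (2 * k - j) x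

lemma sign_B (n m : ℕ) (hm : m ≤ n) : 0 < (-1) ^ (n - m) * B n n (m : ℝ) := by
  obtain ⟨c, hc, h⟩ := B_mean n (m : ℝ)
  rw [h, ← Finset.prod_range_mul_prod_Ico _ hm]
  have h1 : 0 < ∏ j ∈ range m, (c - ((j : ℝ) + 1)) := by
    apply Finset.prod_pos
    intro j hj
    have : (j : ℝ) + 1 ≤ m := by
      have := Finset.mem_range.1 hj
      exact_mod_cast this
    linarith [hc.1]
  have h2 : (-1 : ℝ) ^ (n - m) * ∏ j ∈ Ico m n, (c - ((j : ℝ) + 1)) =
      ∏ j ∈ Ico m n, (((j : ℝ) + 1) - c) := by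
    rw [← Nat.card_Ico m n, ← Finset.prod_const, ← Finset.prod_mul_distrib]
    apply Finset.prod_congr rfl
    intro j _
    ring
  have h3 : 0 < ∏ j ∈ Ico m n, (((j : ℝ) + 1) - c) := by
    apply Finset.prod_pos
    intro j hj
    have : (m : ℝ) ≤ j := by
      have := (Finset.mem_Ico.1 hj).1
      exact_mod_cast this
    linarith [hc.2]
  have h4 : (-1 : ℝ) ^ (n - m) * ((∏ j ∈ range m, (c - ((j : ℝ) + 1))) *
      ∏ j ∈ Ico m n, (c - ((j : ℝ) + 1))) =
      (∏ j ∈ range m, (c - ((j : ℝ) + 1))) * ∏ j ∈ Ico m n, (((j : ℝ) + 1) - c) := by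
    rw [← h2]
    ring
  rw [h4]
  exact mul_pos h1 h3

lemma continuous_B (n : ℕ) : Continuous (B n n) := by
  have : B n n = fun y => (Q n n 0).eval y := by
    funext y
    rw [eval_Q, zero_add]
  rw [this]
  exact (Q n n 0).continuous

/-- All the zeros of `B_n^{(n)}` are real. -/
lemma exists_root (n m : ℕ) (hm : m < n) : ∃ r ∈ Set.Ioo (m : ℝ) (m + 1), B n n r = 0 := by
  have h1 := sign_B n m hm.le
  have h2 := sign_B n (m + 1) hm
  have h3 : n - m = (n - (m + 1)) + 1 := by omega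
  rw [h3, pow_succ] at h1
  have hcont : ContinuousOn (fun y => (-1 : ℝ) ^ (n - (m + 1)) * B n n y)
      (Set.Icc (m : ℝ) (m + 1)) :=
    (continuous_const.mul (continuous_B n)).continuousOn
  have h4 : (0 : ℝ) ∈ Set.Ioo ((-1 : ℝ) ^ (n - (m + 1)) * B n n (m : ℝ))
      ((-1 : ℝ) ^ (n - (m + 1)) * B n n ((m : ℝ) + 1)) := by
    constructor
    · linarith
    · push_cast at h2
      exact h2
  obtain ⟨r, hr, hr0⟩ := intermediate_value_Ioo (by linarith) hcont h4
  refine ⟨r, hr, ?_⟩
  have : (-1 : ℝ) ^ (n - (m + 1)) ≠ 0 := by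
    apply pow_ne_zero
    norm_num
  exact (mul_eq_zero.1 hr0).resolve_left this

lemma exists_factor (n : ℕ) (x : ℝ) : ∃ s : ℕ → ℝ,
    Q n n x = ∏ m ∈ range n, (Polynomial.X - Polynomial.C (s m)) := by
  choose! r hr hr0 using exists_root n
  refine ⟨fun m => r m - x, ?_⟩
  refine Polynomial.eq_of_monic_of_dvd_of_natDegree_le (Polynomial.monic_prod_of_monic _ _
      fun j _ => Polynomial.monic_X_sub_C _) (monic_Q _ _ _) ?_ ?_
  · apply Finset.prod_dvd_of_coprime
    · intro i hi j hj hij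
      have hi' : i < n := by simpa using hi
      have hj' : j < n := by simpa using hj
      apply Polynomial.isCoprime_X_sub_C_of_isUnit_sub
      have h1 := hr i hi'
      have h2 := hr j hj'
      have : (r i - x) - (r j - x) ≠ 0 := by
        intro h0
        rcases lt_or_gt_of_ne hij with h | h
        · have : (i : ℝ) + 1 ≤ j := by exact_mod_cast h
          linarith [h1.2, h2.1]
        · have : (j : ℝ) + 1 ≤ i := by exact_mod_cast h
          linarith [h1.1, h2.2]
      exact this.isUnit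
    · intro j hj
      rw [Polynomial.dvd_iff_isRoot, Polynomial.IsRoot, eval_Q]
      rw [show x + (r j - x) = r j by ring]
      exact hr0 j (by simpa using hj)
  · rw [natDegree_Q, Polynomial.natDegree_prod_of_monic _ _ fun j _ => Polynomial.monic_X_sub_C _,
      Finset.sum_congr rfl (fun j _ => Polynomial.natDegree_X_sub_C _)]
    simp

/-- `Q(-y)`. -/
noncomputable def Qn (n : ℕ) (x : ℝ) : Polynomial ℝ :=
  ∑ j ∈ range (n + 1), Polynomial.C ((-1) ^ j * ((n.choose j : ℝ) * B n (n - j) x)) *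
    Polynomial.X ^ j

lemma coeff_Qn (n : ℕ) (x : ℝ) (j : ℕ) :
    (Qn n x).coeff j = (-1) ^ j * ((n.choose j : ℝ) * B n (n - j) x) := by
  unfold Qn
  rw [Polynomial.finsetSum_coeff]
  simp only [Polynomial.coeff_C_mul, Polynomial.coeff_X_pow, mul_ite, mul_one, mul_zero]
  rw [Finset.sum_ite_eq]
  split_ifs with h
  · rfl
  · have : n < j := by simpa [Nat.lt_succ_iff] using h
    rw [Nat.choose_eq_zero_of_lt this]
    simp

lemma eval_Qn (n : ℕ) (x y : ℝ) : (Qn n x).eval y = (Q n n x).eval (-y) := by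
  rw [Q, Qn, Polynomial.eval_finsetSum, Polynomial.eval_finsetSum]
  apply Finset.sum_congr rfl
  intro j _
  simp only [Polynomial.eval_mul, Polynomial.eval_C, Polynomial.eval_pow, Polynomial.eval_X]
  rw [neg_pow y]
  ring

/-- Alternating coefficients. -/
def Alt (p : Polynomial ℝ) : Prop := ∀ k, 0 ≤ (-1) ^ k * p.coeff k

lemma Alt.mul {p q : Polynomial ℝ} (hp : Alt p) (hq : Alt q) : Alt (p * q) := by
  intro k
  rw [Polynomial.coeff_mul, Finset.mul_sum]
  apply Finset.sum_nonneg
  intro a ha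
  have h : k = a.1 + a.2 := (Finset.HasAntidiagonal.mem_antidiagonal.1 ha).symm
  rw [h, pow_add]
  have := mul_nonneg (hp a.1) (hq a.2)
  linarith

lemma alt_factor (a : ℝ) (ha : 0 ≤ a) : Alt (Polynomial.C a - Polynomial.X) := by
  intro k
  rw [Polynomial.coeff_sub, Polynomial.coeff_C, Polynomial.coeff_X]
  rcases k with _ | _ | k
  · simpa using ha
  · simp
  · simp

lemma alt_prod (n : ℕ) (s : ℕ → ℝ) :
    Alt (∏ m ∈ range n, (Polynomial.C (s m ^ 2) - Polynomial.X)) := by
  induction n with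
  | zero =>
    intro k
    rw [Finset.range_zero, Finset.prod_empty, Polynomial.coeff_one]
    split_ifs with h
    · rw [h]; simp
    · simp
  | succ n ih =>
    rw [Finset.prod_range_succ]
    exact ih.mul (alt_factor _ (sq_nonneg _))

/-- The coefficients of even degree of `Q(y) Q(-y)`. -/
lemma coeff_even (n k : ℕ) (x : ℝ) : 0 ≤ (-1) ^ k * ((Q n n x) * (Qn n x)).coeff (2 * k) := by
  obtain ⟨s, hs⟩ := exists_factor n x
  have h : Q n n x * Qn n x =
      Polynomial.expand ℝ 2 (∏ m ∈ range n, (Polynomial.C (s m ^ 2) - Polynomial.X)) := by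
    apply Polynomial.funext
    intro y
    rw [Polynomial.eval_mul, eval_Qn, hs, Polynomial.expand_eval, Polynomial.eval_prod,
      Polynomial.eval_prod, Polynomial.eval_prod, ← Finset.prod_mul_distrib]
    apply Finset.prod_congr rfl
    intro m _
    simp only [Polynomial.eval_sub, Polynomial.eval_X, Polynomial.eval_C]
    ring
  rw [h, Polynomial.coeff_expand (by norm_num), if_pos (Dvd.intro _ rfl),
    Nat.mul_div_cancel_left _ (by norm_num)]
  exact alt_prod n s k

lemma coeff_QQ (n N : ℕ) (x : ℝ) : ((Q n n x) * (Qn n x)).coeff N =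
    ∑ j ∈ range (N + 1), ((n.choose j : ℝ) * B n (n - j) x) *
      ((-1) ^ (N - j) * ((n.choose (N - j) : ℝ) * B n (n - (N - j)) x)) := by
  rw [Polynomial.coeff_mul, Finset.Nat.sum_antidiagonal_eq_sum_range_succ_mk]
  apply Finset.sum_congr rfl
  intro j _
  rw [coeff_Q, coeff_Qn]

theorem alpha_nonneg (n k : ℕ) (h : 2 * k ≤ n) (x : ℝ) : 0 ≤ alpha n k x := by
  have h1 := coeff_even n k x
  rw [coeff_QQ] at h1
  unfold alpha
  refine h1.trans_eq ?_
  congr 1
  apply Finset.sum_congr rfl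
  intro j hj
  have hj' : j ≤ 2 * k := by simpa [Nat.lt_succ_iff] using hj
  have e1 : n - (2 * k - j) = n - 2 * k + j := by omega
  have e2 : (-1 : ℝ) ^ (2 * k - j) = (-1) ^ j := by
    have : (-1 : ℝ) ^ (2 * k - j) * (-1) ^ j = 1 := by
      rw [← pow_add, Nat.sub_add_cancel hj', pow_mul]
      norm_num
    have h2 : (-1 : ℝ) ^ j * (-1) ^ j = 1 := by
      rw [← mul_pow]
      norm_num
    have h3 : (-1 : ℝ) ^ j ≠ 0 := pow_ne_zero _ (by norm_num)
    exact mul_right_cancel₀ h3 (this.trans h2.symm)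
  rw [e1, e2]
  ring

theorem beta_nonneg (n k : ℕ) (h : 2 * k + 1 ≤ n) (x : ℝ) : 0 ≤ beta n k x := by
  have h1 := coeff_even n (n - k) x
  rw [coeff_QQ] at h1
  unfold beta
  refine h1.trans_eq ?_
  -- restrict the range of the summation to `n - 2 k ≤ j ≤ n`
  have hsub : ∑ j ∈ range (2 * (n - k) + 1), ((n.choose j : ℝ) * B n (n - j) x) *
      ((-1) ^ (2 * (n - k) - j) * ((n.choose (2 * (n - k) - j) : ℝ) *
        B n (n - (2 * (n - k) - j)) x)) =
      ∑ j ∈ Ico (n - 2 * k) (n + 1), ((n.choose j : ℝ) * B n (n - j) x) *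
      ((-1) ^ (2 * (n - k) - j) * ((n.choose (2 * (n - k) - j) : ℝ) *
        B n (n - (2 * (n - k) - j)) x)) := by
    symm
    apply Finset.sum_subset
    · intro j hj
      rw [Finset.mem_Ico] at hj
      rw [Finset.mem_range]
      omega
    · intro j hj hj2
      rw [Finset.mem_range] at hj
      rw [Finset.mem_Ico] at hj2
      by_cases hjn : n < j
      · rw [Nat.choose_eq_zero_of_lt hjn]
        simp
      · rw [Nat.choose_eq_zero_of_lt (show n < 2 * (n - k) - j by omega)]
        simp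
  rw [hsub]
  -- reflect: `j = n - i`
  have hrefl : ∑ j ∈ Ico (n - 2 * k) (n + 1), ((n.choose j : ℝ) * B n (n - j) x) *
      ((-1) ^ (2 * (n - k) - j) * ((n.choose (2 * (n - k) - j) : ℝ) *
        B n (n - (2 * (n - k) - j)) x)) =
      ∑ i ∈ range (2 * k + 1), ((n.choose (n - i) : ℝ) * B n (n - (n - i)) x) *
      ((-1) ^ (2 * (n - k) - (n - i)) * ((n.choose (2 * (n - k) - (n - i)) : ℝ) *
        B n (n - (2 * (n - k) - (n - i))) x)) := by
    refine Finset.sum_nbij' (fun j => n - j) (fun i => n - i) ?_ ?_ ?_ ?_ ?_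
    · intro j hj
      rw [Finset.mem_Ico] at hj
      rw [Finset.mem_range]
      omega
    · intro i hi
      rw [Finset.mem_range] at hi
      rw [Finset.mem_Ico]
      omega
    · intro j hj
      rw [Finset.mem_Ico] at hj
      show n - (n - j) = j
      omega
    · intro i hi
      rw [Finset.mem_range] at hi
      show n - (n - i) = i
      omega
    · intro j hj
      rw [Finset.mem_Ico] at hj
      have : n - (n - j) = j := by omega
      rw [this]
  rw [hrefl, Finset.mul_sum, Finset.mul_sum]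
  apply Finset.sum_congr rfl
  intro i hi
  rw [Finset.mem_range] at hi
  have e1 : n - (n - i) = i := by omega
  have e2 : n - (2 * (n - k) - (n - i)) = 2 * k - i := by omega
  have e3 : n.choose (n - i) = n.choose i := Nat.choose_symm (by omega)
  have e4 : n.choose (2 * (n - k) - (n - i)) = n.choose (2 * k - i) := by
    rw [show 2 * (n - k) - (n - i) = n - (2 * k - i) by omega]
    exact Nat.choose_symm (by omega)
  have e5 : (-1 : ℝ) ^ (n - k) * (-1) ^ (2 * (n - k) - (n - i)) = (-1) ^ k * (-1) ^ i := by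
    have h2 : ((-1 : ℝ) ^ k * (-1) ^ i) * ((-1 : ℝ) ^ k * (-1) ^ i) = 1 := by
      rw [← pow_add, ← pow_add, show k + i + (k + i) = 2 * (k + i) by ring, pow_mul]
      norm_num
    have h3 : ((-1 : ℝ) ^ (n - k) * (-1) ^ (2 * (n - k) - (n - i))) *
        ((-1 : ℝ) ^ k * (-1) ^ i) = 1 := by
      rw [← pow_add, ← pow_add, ← pow_add,
        show n - k + (2 * (n - k) - (n - i)) + (k + i) = 2 * (n - k + i) by omega, pow_mul]
      norm_num
    have h4 : ((-1 : ℝ) ^ k * (-1) ^ i) ≠ 0 :=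
      mul_ne_zero (pow_ne_zero _ (by norm_num)) (pow_ne_zero _ (by norm_num))
    exact mul_right_cancel₀ h4 (h3.trans h2.symm)
  rw [e1, e2, e3, e4]
  linear_combination ((n.choose i : ℝ) * B n i x * ((n.choose (2 * k - i) : ℝ) *
    B n (2 * k - i) x)) * e5

end Pool.Agent.N245.GB
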